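import Pool.Agent.Helper73.M3.Defs

/-!
# One-variable integrals of `Φ` along affine functions
-/

set_option autoImplicit false

noncomputable section

namespace Pool.Agent.Helper47.M3

open Helper73.M3 MeasureTheory intervalIntegral Set

/-- the integrand is continuous -/
lemma cont_of {m : ℝ → ℝ} (hm : Continuous m) : Continuous fun t => 3 * t ^ 2 * Ph (m t) := by
  have := Ph_continuous.comp hm
  exact (by fun_prop : Continuous fun t : ℝ => 3 * t ^ 2).mul this

lemma int_zero {m : ℝ → ℝ} {a b : ℝ} (hab : a ≤ b) (h : ∀ t ∈ Icc a b, m t ≤ 2) :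
    ∫ t in a..b, 3 * t ^ 2 * Ph (m t) = 0 := by
  rw [integral_congr (g := fun _ => (0 : ℝ))]
  · simp
  · intro t ht
    rw [uIcc_of_le hab] at ht
    simp only
    rw [Ph_of_le (h t ht), mul_zero]

lemma int_val {m : ℝ → ℝ} {a b α β : ℝ} (hab : a ≤ b) (hα : α ≠ 0)
    (h : ∀ t ∈ Icc a b, m t = (1 - t) * α + t * β)
    (h2 : ∀ t ∈ Icc a b, 2 ≤ (1 - t) * α + t * β) :
    ∫ t in a..b, 3 * t ^ 2 * Ph (m t) =
      (b ^ 3 - 16 * (b / ((1 - b) * α + b * β)) ^ 3 / α) -
        (a ^ 3 - 16 * (a / ((1 - a) * α + a * β)) ^ 3 / α) := by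
  have e : ∫ t in a..b, 3 * t ^ 2 * Ph (m t) =
      ∫ t in a..b, 3 * t ^ 2 * (1 - 16 / ((1 - t) * α + t * β) ^ 4) := by
    apply integral_congr
    intro t ht
    rw [uIcc_of_le hab] at ht
    simp only
    rw [h t ht, Ph_of_ge (h2 t ht)]
  rw [e]
  have hne : ∀ t ∈ uIcc a b, (1 - t) * α + t * β ≠ 0 := by
    intro t ht
    rw [uIcc_of_le hab] at ht
    have := h2 t ht
    linarith
  refine integral_eq_sub_of_hasDerivAt
    (f := fun t => t ^ 3 - 16 * (t / ((1 - t) * α + t * β)) ^ 3 / α) ?_ ?_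
  · intro t ht
    have hn := hne t ht
    have h1 : HasDerivAt (fun t : ℝ => (1 - t) * α + t * β) (β - α) t := by
      have := (((hasDerivAt_id t).const_sub 1).mul_const α).add ((hasDerivAt_id t).mul_const β)
      refine this.congr_deriv ?_
      ring
    have h3 : HasDerivAt (fun t : ℝ => t / ((1 - t) * α + t * β))
        (α / ((1 - t) * α + t * β) ^ 2) t := by
      refine ((hasDerivAt_id t).div h1 hn).congr_deriv ?_
      congr 1
      simp only [id]
      ring
    have h4 : HasDerivAt (fun t : ℝ => t ^ 3 - 16 * (t / ((1 - t) * α + t * β)) ^ 3 / α)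
        (3 * t ^ 2 - 16 * (3 * (t / ((1 - t) * α + t * β)) ^ 2 *
          (α / ((1 - t) * α + t * β) ^ 2)) / α) t := by
      have h5 := (((h3.pow 3).const_mul 16).div_const α)
      have h6 := (hasDerivAt_pow 3 t).sub h5
      refine h6.congr_deriv ?_
      norm_num
    refine h4.congr_deriv ?_
    field_simp
  · apply ContinuousOn.intervalIntegrable
    refine ContinuousOn.mul (by fun_prop) ?_
    refine continuousOn_const.sub (continuousOn_const.div (by fun_prop) ?_)
    intro t ht
    exact pow_ne_zero _ (hne t ht)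

lemma split {f : ℝ → ℝ} (hf : Continuous f) (a b c : ℝ) :
    ∫ t in a..c, f t = (∫ t in a..b, f t) + ∫ t in b..c, f t :=
  (integral_add_adjacent_intervals (hf.intervalIntegrable _ _) (hf.intervalIntegrable _ _)).symm

end Pool.Agent.Helper47.M3

end
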