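import Pool.Agent.Helper47.M3.Com

/-!
# Part G3
-/

set_option autoImplicit false

noncomputable section

namespace Pool.Agent.Helper47.M3

open Helper73.M3 MeasureTheory intervalIntegral Set

lemma g3_poly {x u w : ℝ} (hx : 0 ≤ x) (hu : 0 ≤ u) (hw : 0 ≤ w) :
    x ^ 2 * (10 * (x + u) + 18 * w) * (2 * (x + u + w)) ^ 3 *
      ((2 * x + u + 2 * w) ^ 2 * (x + 2 * w) ^ 2 + (x + u + 2 * w) ^ 2 * (x + 2 * w) ^ 2 +
        (2 * x + u + 2 * w) ^ 2 * (2 * w) ^ 2 +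
        (2 * x + u + 2 * w) * (x + u + 2 * w) * (x + 2 * w) ^ 2 +
        (2 * x + u + 2 * w) ^ 2 * (x + 2 * w) * (2 * w) +
        (2 * x + u + 2 * w) * (x + u + 2 * w) * (x + 2 * w) * (2 * w)) ≤
    54 * (x + u) ^ 2 * (2 * x + u + 2 * w) ^ 5 * (x + 2 * w) ^ 3 := by
  rw [← sub_nonneg]
  have h : 54 * (x + u) ^ 2 * (2 * x + u + 2 * w) ^ 5 * (x + 2 * w) ^ 3 -
      x ^ 2 * (10 * (x + u) + 18 * w) * (2 * (x + u + w)) ^ 3 *
      ((2 * x + u + 2 * w) ^ 2 * (x + 2 * w) ^ 2 + (x + u + 2 * w) ^ 2 * (x + 2 * w) ^ 2 +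
        (2 * x + u + 2 * w) ^ 2 * (2 * w) ^ 2 +
        (2 * x + u + 2 * w) * (x + u + 2 * w) * (x + 2 * w) ^ 2 +
        (2 * x + u + 2 * w) ^ 2 * (x + 2 * w) * (2 * w) +
        (2 * x + u + 2 * w) * (x + u + 2 * w) * (x + 2 * w) * (2 * w)) =
      13824 * u ^ 2 * w ^ 8 + 34560 * u ^ 3 * w ^ 7 + 34560 * u ^ 4 * w ^ 6 +
      17280 * u ^ 5 * w ^ 5 + 4320 * u ^ 6 * w ^ 4 + 432 * u ^ 7 * w ^ 3 +
      27648 * x * u * w ^ 8 + 158976 * x * u ^ 2 * w ^ 7 + 259200 * x * u ^ 3 * w ^ 6 +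
      190080 * x * u ^ 4 * w ^ 5 + 69120 * x * u ^ 5 * w ^ 4 + 11664 * x * u ^ 6 * w ^ 3 +
      648 * x * u ^ 7 * w ^ 2 + 151296 * x ^ 2 * u * w ^ 7 + 549888 * x ^ 2 * u ^ 2 * w ^ 6 +
      655296 * x ^ 2 * u ^ 3 * w ^ 5 + 349728 * x ^ 2 * u ^ 4 * w ^ 4 +
      87216 * x ^ 2 * u ^ 5 * w ^ 3 + 9096 * x ^ 2 * u ^ 6 * w ^ 2 + 324 * x ^ 2 * u ^ 7 * w +
      8448 * x ^ 3 * w ^ 7 + 381056 * x ^ 3 * u * w ^ 6 + 957504 * x ^ 3 * u ^ 2 * w ^ 5 +
      823456 * x ^ 3 * u ^ 3 * w ^ 4 + 304784 * x ^ 3 * u ^ 4 * w ^ 3 +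
      48744 * x ^ 3 * u ^ 5 * w ^ 2 + 3148 * x ^ 3 * u ^ 6 * w + 54 * x ^ 3 * u ^ 7 +
      47168 * x ^ 4 * w ^ 6 + 588000 * x ^ 4 * u * w ^ 5 + 1002768 * x ^ 4 * u ^ 2 * w ^ 4 +
      596000 * x ^ 4 * u ^ 3 * w ^ 3 + 144024 * x ^ 4 * u ^ 4 * w ^ 2 +
      13932 * x ^ 4 * u ^ 5 * w + 408 * x ^ 4 * u ^ 6 + 111264 * x ^ 5 * w ^ 5 +
      607824 * x ^ 5 * u * w ^ 4 + 680160 * x ^ 5 * u ^ 2 * w ^ 3 +
      263952 * x ^ 5 * u ^ 3 * w ^ 2 + 38148 * x ^ 5 * u ^ 4 * w + 1614 * x ^ 5 * u ^ 5 +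
      143440 * x ^ 6 * w ^ 4 + 421824 * x ^ 6 * u * w ^ 3 + 297696 * x ^ 6 * u ^ 2 * w ^ 2 +
      68288 * x ^ 6 * u ^ 3 * w + 4300 * x ^ 6 * u ^ 4 + 108864 * x ^ 7 * w ^ 3 +
      185952 * x ^ 7 * u * w ^ 2 + 75744 * x ^ 7 * u ^ 2 * w + 7600 * x ^ 7 * u ^ 3 +
      48480 * x ^ 8 * w ^ 2 + 46176 * x ^ 8 * u * w + 8208 * x ^ 8 * u ^ 2 + 11680 * x ^ 9 * w +
      4816 * x ^ 9 * u + 1168 * x ^ 10 := by ring
  rw [h]
  positivity

/-- the case `p = 1`, with quotients -/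
lemma g3_one {x u e A B : ℝ} (hx : 0 < x) (hu : 0 ≤ u) (he : e = x + u) (he2 : e ≤ 1 / 2)
    (hA : A = 1 - u) (hB : B = x + (1 - 2 * e)) :
    x ^ 2 * (9 - 8 * e) * (1 + ((1 - e) / A) ^ 2 + ((1 - 2 * e) / B) ^ 2 + (1 - e) / A +
      (1 - 2 * e) / B + (1 - e) / A * ((1 - 2 * e) / B)) ≤ 54 * e ^ 2 * A ^ 3 * B := by
  have hA0 : 0 < A := by rw [hA]; linarith
  have hB0 : 0 < B := by rw [hB]; linarith
  have key := g3_poly hx.le hu (by linarith : 0 ≤ 1 / 2 - e)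
  have e1 : 2 * x + u + 2 * (1 / 2 - e) = A := by rw [hA, he]; ring
  have e2 : x + 2 * (1 / 2 - e) = B := by rw [hB]; ring
  have e3 : x + u + 2 * (1 / 2 - e) = 1 - e := by rw [he]; ring
  have e4 : 2 * (x + u + (1 / 2 - e)) = 1 := by rw [he]; ring
  have e5 : 2 * (1 / 2 - e) = 1 - 2 * e := by ring
  have e6 : 10 * (x + u) + 18 * (1 / 2 - e) = 9 - 8 * e := by rw [he]; ring
  rw [e6, e4, e1, e2, e3, e5, ← he] at key
  have e7 : 1 + ((1 - e) / A) ^ 2 + ((1 - 2 * e) / B) ^ 2 + (1 - e) / A +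
      (1 - 2 * e) / B + (1 - e) / A * ((1 - 2 * e) / B) =
      (A ^ 2 * B ^ 2 + (1 - e) ^ 2 * B ^ 2 + A ^ 2 * (1 - 2 * e) ^ 2 + A * (1 - e) * B ^ 2 +
        A ^ 2 * B * (1 - 2 * e) + A * (1 - e) * B * (1 - 2 * e)) / (A ^ 2 * B ^ 2) := by
    field_simp
  rw [e7, mul_div_assoc', div_le_iff₀ (by positivity)]
  calc _ = x ^ 2 * (9 - 8 * e) * 1 ^ 3 * (A ^ 2 * B ^ 2 + (1 - e) ^ 2 * B ^ 2 +
        A ^ 2 * (1 - 2 * e) ^ 2 + A * (1 - e) * B ^ 2 +
        A ^ 2 * B * (1 - 2 * e) + A * (1 - e) * B * (1 - 2 * e)) := by ring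
    _ ≤ _ := key
    _ = _ := by ring

/-- general `p`, in the normalised variables -/
lemma g3_gen {p x u e A K : ℝ} (hp0 : 0 ≤ p) (hp1 : p ≤ 1) (hx : 0 < x) (hu : 0 ≤ u)
    (he : e = x + u) (he2 : e ≤ 1 / 2) (hA : A = 1 - u) (hK : K = (2 - p) * x + (1 - 2 * e)) :
    p ^ 2 * x ^ 2 * (10 - p - 8 * p * e) * (1 + ((1 - e) / A) ^ 2 + ((1 - 2 * e) / K) ^ 2 +
      (1 - e) / A + (1 - 2 * e) / K + (1 - e) / A * ((1 - 2 * e) / K)) ≤
      54 * e ^ 2 * A ^ 3 * K := by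
  have hA0 : 0 < A := by rw [hA]; linarith
  set B : ℝ := x + (1 - 2 * e) with hB
  have hB0 : 0 < B := by rw [hB]; linarith
  have hBK : B ≤ K := by rw [hB, hK]; nlinarith
  have hK0 : 0 < K := lt_of_lt_of_le hB0 hBK
  have h1 := g3_one hx hu he he2 hA hB
  have hκ : (1 - 2 * e) / K ≤ (1 - 2 * e) / B :=
    div_le_div_of_nonneg_left (by linarith) hB0 hBK
  have hκ0 : 0 ≤ (1 - 2 * e) / K := div_nonneg (by linarith) hK0.le
  have hα0 : 0 ≤ (1 - e) / A := div_nonneg (by linarith) hA0.le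
  have hφ : p ^ 2 * (10 - p - 8 * p * e) ≤ 9 - 8 * e := by
    have h2 : 0 ≤ 10 * (1 + p) - (1 + 8 * e) * (1 + p + p ^ 2) := by
      have h3 : (1 + 8 * e) * (1 + p + p ^ 2) ≤ 5 * (1 + p + p ^ 2) :=
        mul_le_mul_of_nonneg_right (by linarith) (by positivity)
      nlinarith
    have h4 := mul_nonneg (sub_nonneg.2 hp1) h2
    nlinarith
  have hsum : 1 + ((1 - e) / A) ^ 2 + ((1 - 2 * e) / K) ^ 2 +
      (1 - e) / A + (1 - 2 * e) / K + (1 - e) / A * ((1 - 2 * e) / K) ≤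
      1 + ((1 - e) / A) ^ 2 + ((1 - 2 * e) / B) ^ 2 + (1 - e) / A +
      (1 - 2 * e) / B + (1 - e) / A * ((1 - 2 * e) / B) := by
    gcongr
  have hsum0 : 0 ≤ 1 + ((1 - e) / A) ^ 2 + ((1 - 2 * e) / K) ^ 2 +
      (1 - e) / A + (1 - 2 * e) / K + (1 - e) / A * ((1 - 2 * e) / K) := by positivity
  calc _ = p ^ 2 * (10 - p - 8 * p * e) * (x ^ 2 * (1 + ((1 - e) / A) ^ 2 +
        ((1 - 2 * e) / K) ^ 2 +
        (1 - e) / A + (1 - 2 * e) / K + (1 - e) / A * ((1 - 2 * e) / K))) := by ring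
    _ ≤ (9 - 8 * e) * (x ^ 2 * (1 + ((1 - e) / A) ^ 2 +
        ((1 - 2 * e) / K) ^ 2 +
        (1 - e) / A + (1 - 2 * e) / K + (1 - e) / A * ((1 - 2 * e) / K))) :=
      mul_le_mul_of_nonneg_right hφ (by positivity)
    _ ≤ (9 - 8 * e) * (x ^ 2 * (1 + ((1 - e) / A) ^ 2 + ((1 - 2 * e) / B) ^ 2 + (1 - e) / A +
      (1 - 2 * e) / B + (1 - e) / A * ((1 - 2 * e) / B))) := by
      apply mul_le_mul_of_nonneg_left _ (by linarith)
      exact mul_le_mul_of_nonneg_left hsum (by positivity)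
    _ = x ^ 2 * (9 - 8 * e) * (1 + ((1 - e) / A) ^ 2 + ((1 - 2 * e) / B) ^ 2 + (1 - e) / A +
      (1 - 2 * e) / B + (1 - e) / A * ((1 - 2 * e) / B)) := by ring
    _ ≤ 54 * e ^ 2 * A ^ 3 * B := h1
    _ ≤ _ := mul_le_mul_of_nonneg_left hBK (by positivity)

lemma jensen4 {ω K κ : ℝ} (hω : 0 < ω) (hK : 0 < K) :
    ω + K * κ ^ 4 - (ω + K) * ((ω + K * κ) / (ω + K)) ^ 4 =
      ω * K / (ω + K) * (1 - κ) ^ 2 * (1 + ((ω + K * κ) / (ω + K)) ^ 2 + κ ^ 2 +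
        (ω + K * κ) / (ω + K) + κ + (ω + K * κ) / (ω + K) * κ) := by
  have : ω + K ≠ 0 := by positivity
  field_simp
  ring

/-- the final inequality -/
lemma g3_final {D ω υ : ℝ} (hD0 : 0 ≤ D) (hD1 : D < 1) (hω : ω ≤ (1 + D) / 2)
    (hυ1 : υ ≤ 1) (hτ : 1 - ω < υ * (1 - D)) (hK : 0 < (1 + D) * υ - ω) (hω0 : 0 < ω)
    (hυ : 0 < υ) :
    (1 - D) ^ 4 - (1 + D) * (1 - ω) ^ 4 / (ω * υ ^ 3) +
      (1 + D - 2 * ω) ^ 4 / (ω * ((1 + D) * υ - ω) ^ 3) ≤
      54 * (1 + D) * (ω - D) ^ 2 / (9 * (1 + D) - 8 * ω) * υ ^ 2 := by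
  have hp : 0 < 1 - D := by linarith
  have hM : 0 < 9 * (1 + D) - 8 * ω := by linarith
  set p : ℝ := 1 - D with hpd
  set e : ℝ := (ω - D) / p with hed
  set K : ℝ := (1 + D) * υ - ω with hKd
  have hDp : D = 1 - p := by rw [hpd]; ring
  have hωe : ω = 1 - p + p * e := by
    rw [hed, ← hDp]; field_simp; ring
  have he2 : e ≤ 1 / 2 := by
    rw [hed, div_le_iff₀ hp, hpd]; linarith
  have hx : 0 < e - (1 - υ) := by
    have : 0 < p * (e - (1 - υ)) := by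
      have : p * (e - (1 - υ)) = υ * p - (1 - ω) := by rw [hωe]; ring
      rw [this]; linarith
    exact (pos_iff_pos_of_mul_pos this).1 hp
  have hKe : K = (2 - p) * (e - (1 - υ)) + (1 - 2 * e) := by
    rw [hKd, hωe, hDp]; ring
  have key := g3_gen (p := p) (x := e - (1 - υ)) (u := 1 - υ) (e := e) (A := υ) (K := K)
    hp.le (by rw [hpd]; linarith) hx (by linarith) (by ring) he2 (by ring) hKe
  have h1 : p ^ 4 - (1 + D) * (1 - ω) ^ 4 / (ω * υ ^ 3) +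
      (1 + D - 2 * ω) ^ 4 / (ω * K ^ 3) =
      (1 + D) * p ^ 2 / (υ * K * (9 * (1 + D) - 8 * ω)) *
        (p ^ 2 * (e - (1 - υ)) ^ 2 * (10 - p - 8 * p * e) *
          (1 + ((1 - e) / υ) ^ 2 + ((1 - 2 * e) / K) ^ 2 +
      (1 - e) / υ + (1 - 2 * e) / K + (1 - e) / υ * ((1 - 2 * e) / K))) := by
    have hM' : 9 * (1 + D) - 8 * ω = 10 - p - 8 * p * e := by rw [hωe, hDp]; ring
    set α : ℝ := (1 - e) / υ with hα
    set κ : ℝ := (1 - 2 * e) / K with hκ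
    have hω1 : 1 - ω = p * (υ * α) := by rw [hα, hωe]; field_simp; ring
    have hω2 : 1 + D - 2 * ω = p * (K * κ) := by rw [hκ, hωe, hDp]; field_simp; ring
    have hS : (1 + D) * υ = ω + K := by rw [hKd]; ring
    have hαS : α = (ω + K * κ) / (ω + K) := by
      rw [← hS, eq_div_iff (by positivity)]
      have h5 : K * κ = 1 - 2 * e := by rw [hκ]; field_simp
      have h6 : α * υ = 1 - e := by rw [hα]; field_simp
      rw [h5]
      calc α * ((1 + D) * υ) = (1 + D) * (α * υ) := by ring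
        _ = ω + (1 - 2 * e) := by rw [h6, hωe, hDp]; ring
    have hκ1 : (1 + D) * (e - (1 - υ)) = K * (1 - κ) := by
      have h5 : K * κ = 1 - 2 * e := by rw [hκ]; field_simp
      have : K * (1 - κ) = K - K * κ := by ring
      rw [this, h5, hKe, hDp]; ring
    have hj := jensen4 (κ := κ) hω0 hK
    rw [← hαS] at hj
    have l1 : p ^ 4 - (1 + D) * (1 - ω) ^ 4 / (ω * υ ^ 3) +
        (1 + D - 2 * ω) ^ 4 / (ω * K ^ 3) =
        p ^ 4 / ω * (ω + K * κ ^ 4 - (ω + K) * α ^ 4) := by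
      rw [hω1, hω2, ← hS]
      field_simp
      ring
    rw [l1, hj, hM', ← hS]
    have hM0 : 10 - p - 8 * p * e ≠ 0 := by rw [← hM']; exact hM.ne'
    have h7 : (1 + D) ^ 2 * (e - (1 - υ)) ^ 2 = K ^ 2 * (1 - κ) ^ 2 := by
      rw [← mul_pow, hκ1, mul_pow]
    have h8 : (1 - κ) ^ 2 = (1 + D) ^ 2 * (e - (1 - υ)) ^ 2 / K ^ 2 := by
      rw [h7]; field_simp
    rw [h8]
    have hN0 : (1 + D) ≠ 0 := by linarith
    generalize (1 + α ^ 2 + κ ^ 2 + α + κ + α * κ) = H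
    generalize 10 - p - 8 * p * e = M at hM0 ⊢
    field_simp
  rw [h1]
  calc _ ≤ (1 + D) * p ^ 2 / (υ * K * (9 * (1 + D) - 8 * ω)) * (54 * e ^ 2 * υ ^ 3 * K) :=
        mul_le_mul_of_nonneg_left key (by positivity)
    _ = _ := by
      have : ω - D = p * e := by rw [hωe, hDp]; ring
      rw [this]
      field_simp

set_option maxHeartbeats 4000000 in
theorem g3 : ∀ D ω υ : ℝ, 0 ≤ D → D < 1 → 0 ≤ ω → ω ≤ (1 + D) / 2 → 0 ≤ υ → υ ≤ 1 →
    16 * ∫ t in (0 : ℝ)..1, 3 * t ^ 2 *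
        Ph (min ((1 - t) * (4 / (1 + D))) ((1 - t) * (ω * (4 / (1 + D))) + t * (4 * υ))) ≤
      54 * (1 + D) * (max (ω - D) 0) ^ 2 / (9 * (1 + D) - 8 * ω) * υ ^ 2 := by
  intro D ω υ hD0 hD1 hω0 hω1 hυ0 hυ1
  have hN : 0 < 1 + D := by linarith
  have hp : 0 < 1 - D := by linarith
  have hM : 0 < 9 * (1 + D) - 8 * ω := by linarith
  have hV : 0 < 4 / (1 + D) := by positivity
  have hrhs : 0 ≤ 54 * (1 + D) * (max (ω - D) 0) ^ 2 / (9 * (1 + D) - 8 * ω) * υ ^ 2 := by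
    positivity
  have hc0 : Continuous fun t : ℝ => (1 - t) * (4 / (1 + D)) := by fun_prop
  have hcj : Continuous fun t : ℝ => (1 - t) * (ω * (4 / (1 + D))) + t * (4 * υ) := by fun_prop
  have hcm : Continuous fun t : ℝ =>
      min ((1 - t) * (4 / (1 + D))) ((1 - t) * (ω * (4 / (1 + D))) + t * (4 * υ)) := hc0.min hcj
  -- `F_0 - 2`
  have k0 : ∀ t, (1 - t) * (4 / (1 + D)) - 2 = ((1 - D) / 2 - t) * (4 / (1 + D)) := by
    intro t; field_simp; ring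
  rcases le_or_gt (υ * (1 - D)) (1 - ω) with hτ | hτ
  · -- no overlap
    rw [int_zero (by norm_num), mul_zero]
    · exact hrhs
    · intro t ht
      rcases le_total t ((1 - D) / 2) with h | h
      · refine (min_le_right _ _).trans ?_
        have e1 : (1 - t) * (ω * (4 / (1 + D))) + t * (4 * υ) - 2 =
            4 / (1 + D) * ((1 - t) * ω + t * υ * (1 + D) - (1 + D) / 2) := by
          field_simp; ring
        have e2 : (1 - t) * ω + t * υ * (1 + D) - (1 + D) / 2 ≤ 0 := by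
          -- affine in `t`, nonpositive at the end points
          have h1 : (1 - (1 - D) / 2) * ω + (1 - D) / 2 * υ * (1 + D) - (1 + D) / 2 ≤ 0 := by
            nlinarith
          have h2 : 0 ≤ (1 - D) / 2 - t := by linarith
          have h3 := mul_nonneg ht.1 (neg_nonneg.2 h1)
          have h4 := mul_nonneg h2 (sub_nonneg.2 hω1)
          have h5 : (1 - D) / 2 * ((1 - t) * ω + t * υ * (1 + D) - (1 + D) / 2) =
              -(t * -((1 - (1 - D) / 2) * ω + (1 - D) / 2 * υ * (1 + D) - (1 + D) / 2)) -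
              ((1 - D) / 2 - t) * ((1 + D) / 2 - ω) := by ring
          have h6 : (1 - D) / 2 * ((1 - t) * ω + t * υ * (1 + D) - (1 + D) / 2) ≤ 0 := by
            rw [h5]; linarith
          by_contra hcon
          have := mul_pos (by linarith : 0 < (1 - D) / 2) (not_le.1 hcon)
          linarith
        have e3 := mul_nonneg hV.le (neg_nonneg.2 e2)
        nlinarith
      · refine (min_le_left _ _).trans ?_
        have e1 := k0 t
        have e2 : ((1 - D) / 2 - t) * (4 / (1 + D)) ≤ 0 :=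
          mul_nonpos_of_nonpos_of_nonneg (by linarith) hV.le
        linarith
  · -- overlap
    have hωD : D < ω := by nlinarith
    have hωpos : 0 < ω := by linarith
    have hυ2 : 1 / 2 < υ := by
      by_contra h
      have h' := not_lt.1 h
      nlinarith
    have hυ : 0 < υ := by linarith
    have hK : 0 < (1 + D) * υ - ω := by nlinarith
    rw [max_eq_left (by linarith)]
    refine le_trans (le_of_eq ?_)
      (g3_final hD0 hD1 hω1 hυ1 hτ hK hωpos hυ)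
    set K : ℝ := (1 + D) * υ - ω with hKd
    set Z : ℝ := 1 - ω + (1 + D) * υ with hZ
    have hZ0 : 0 < Z := by rw [hZ]; nlinarith
    -- `F_j - 2` and `F_j - F_0`
    have kj : ∀ t, (1 - t) * (ω * (4 / (1 + D))) + t * (4 * υ) - 2 =
        (t - (1 + D - 2 * ω) / (2 * K)) * (4 * K / (1 + D)) := by
      intro t; field_simp; rw [hKd]; ring
    have kd : ∀ t, (1 - t) * (ω * (4 / (1 + D))) + t * (4 * υ) - (1 - t) * (4 / (1 + D)) =
        (t - (1 - ω) / Z) * (4 * Z / (1 + D)) := by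
      intro t; field_simp; rw [hZ]; ring
    set ta : ℝ := (1 + D - 2 * ω) / (2 * K) with hta
    set tx : ℝ := (1 - ω) / Z with htx
    set tb : ℝ := (1 - D) / 2 with htb
    have hta0 : 0 ≤ ta := div_nonneg (by linarith) (by linarith)
    have htax : ta ≤ tx := by
      rw [hta, htx, div_le_div_iff₀ (by linarith) hZ0, hKd, hZ]
      nlinarith
    have htxb : tx ≤ tb := by
      rw [htx, htb, div_le_div_iff₀ hZ0 (by norm_num), hZ]
      nlinarith
    have htb1 : tb ≤ 1 := by rw [htb]; linarith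
    have hKN : 0 ≤ 4 * K / (1 + D) := by positivity
    have hZN : 0 ≤ 4 * Z / (1 + D) := by positivity
    rw [split (cont_of hcm) 0 ta 1, split (cont_of hcm) ta tx 1, split (cont_of hcm) tx tb 1]
    rw [int_zero (a := 0) (b := ta) hta0 (fun t ht => by
      refine (min_le_right _ _).trans ?_
      have h1 := kj t
      have h2 : (t - ta) * (4 * K / (1 + D)) ≤ 0 :=
        mul_nonpos_of_nonpos_of_nonneg (by linarith [ht.2]) hKN
      linarith)]
    rw [int_zero (a := tb) (b := 1) htb1 (fun t ht => by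
      refine (min_le_left _ _).trans ?_
      have h1 := k0 t
      have h2 : (tb - t) * (4 / (1 + D)) ≤ 0 :=
        mul_nonpos_of_nonpos_of_nonneg (by linarith [ht.1]) hV.le
      linarith)]
    rw [int_val (a := ta) (b := tx) (α := ω * (4 / (1 + D))) (β := 4 * υ) htax
      (by positivity) (fun t ht => by
        apply min_eq_right
        have h1 := kd t
        have h2 : (t - tx) * (4 * Z / (1 + D)) ≤ 0 :=
          mul_nonpos_of_nonpos_of_nonneg (by linarith [ht.2]) hZN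
        linarith) (fun t ht => by
        have h1 := kj t
        have h2 : 0 ≤ (t - ta) * (4 * K / (1 + D)) :=
          mul_nonneg (by linarith [ht.1]) hKN
        linarith)]
    rw [int_val (a := tx) (b := tb) (α := 4 / (1 + D)) (β := 0) htxb
      hV.ne' (fun t ht => by
        rw [mul_zero, add_zero]
        apply min_eq_left
        have h1 := kd t
        have h2 : 0 ≤ (t - tx) * (4 * Z / (1 + D)) :=
          mul_nonneg (by linarith [ht.1]) hZN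
        linarith) (fun t ht => by
        have h1 := k0 t
        have h2 : 0 ≤ (tb - t) * (4 / (1 + D)) :=
          mul_nonneg (by linarith [ht.2]) hV.le
        linarith)]
    have ea : (1 - ta) * (ω * (4 / (1 + D))) + ta * (4 * υ) = 2 := by
      have := kj ta
      rw [sub_self, zero_mul] at this
      linarith
    have eb : (1 - tb) * (4 / (1 + D)) + tb * 0 = 2 := by
      have := k0 tb
      rw [sub_self, zero_mul] at this
      linarith
    have ex0 : (1 - tx) * (4 / (1 + D)) + tx * 0 = 4 * υ / Z := by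
      rw [htx]; field_simp; rw [hZ]; ring
    have exj : (1 - tx) * (ω * (4 / (1 + D))) + tx * (4 * υ) = 4 * υ / Z := by
      have := kd tx
      rw [sub_self, zero_mul] at this
      linarith
    rw [ea, eb, ex0, exj]
    have eq : tx / (4 * υ / Z) = (1 - ω) / (4 * υ) := by
      rw [htx]; field_simp
    rw [eq, hta, htb]
    have hp0 : (1 - D) ≠ 0 := hp.ne'
    have hid : 16 * ((tx ^ 3 - 16 * ((1 - ω) / (4 * υ)) ^ 3 / (ω * (4 / (1 + D))) -
        (((1 + D - 2 * ω) / (2 * K)) ^ 3 -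
          16 * ((1 + D - 2 * ω) / (2 * K) / 2) ^ 3 / (ω * (4 / (1 + D))))) +
        (((1 - D) / 2) ^ 3 - 16 * ((1 - D) / 2 / 2) ^ 3 / (4 / (1 + D)) -
          (tx ^ 3 - 16 * ((1 - ω) / (4 * υ)) ^ 3 / (4 / (1 + D))))) =
        (1 - D) ^ 4 - (1 + D) * (1 - ω) ^ 4 / (ω * υ ^ 3) +
        (1 + D - 2 * ω) ^ 4 / (ω * K ^ 3) := by
      field_simp
      ring
    rw [← hid]
    ring

end Pool.Agent.Helper47.M3

end
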