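import Pool.Agent.Helper47.M3.Com

/-!
# Part G4
-/

set_option autoImplicit false

noncomputable section

namespace Pool.Agent.Helper47.M3

open Helper73.M3 MeasureTheory intervalIntegral Set

/-- the integral of `Φ` along `(1 - t) V`, `V = 4 / (1 + D)` -/
lemma int_base {D : ℝ} (hD0 : 0 ≤ D) (hD1 : D < 1) :
    16 * ∫ t in (0 : ℝ)..1, 3 * t ^ 2 * Ph ((1 - t) * (4 / (1 + D))) = (1 - D) ^ 4 := by
  have hN : 0 < 1 + D := by linarith
  have hV : 0 < 4 / (1 + D) := by positivity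
  have hc : Continuous fun t : ℝ => (1 - t) * (4 / (1 + D)) := by fun_prop
  rw [split (cont_of hc) 0 ((1 - D) / 2) 1]
  have key : ∀ t, (1 - t) * (4 / (1 + D)) - 2 = ((1 - D) / 2 - t) * (4 / (1 + D)) := by
    intro t; field_simp; ring
  rw [int_zero (a := (1 - D) / 2) (by linarith) (fun t ht => by
    have := key t
    have h1 : ((1 - D) / 2 - t) * (4 / (1 + D)) ≤ 0 :=
      mul_nonpos_of_nonpos_of_nonneg (by linarith [ht.1]) hV.le
    linarith)]
  rw [int_val (α := 4 / (1 + D)) (β := 0) (by linarith) hV.ne' (fun t _ => by ring) (fun t ht => by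
    have := key t
    have h1 : 0 ≤ ((1 - D) / 2 - t) * (4 / (1 + D)) :=
      mul_nonneg (by linarith [ht.2]) hV.le
    linarith)]
  have e : (1 - (1 - D) / 2) * (4 / (1 + D)) + (1 - D) / 2 * 0 = 2 := by
    field_simp; ring
  rw [e]
  field_simp
  ring

lemma chord {X Y r : ℝ} (hX : 0 ≤ X) (hY : 0 ≤ Y) (hXY : X + Y = 1) (hr : 0 ≤ r) :
    r ^ 3 ≤ (Y * r ^ 3 + X) * (Y + X * r) ^ 3 := by
  have h : (Y * r ^ 3 + X) * (Y + X * r) ^ 3 - r ^ 3 * (X + Y) ^ 4 =
      X * Y ^ 3 * ((1 - r) ^ 2 * (1 + 2 * r + 3 * r ^ 2)) +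
      3 * X ^ 2 * Y ^ 2 * (r * (1 - r ^ 2) ^ 2) +
      X ^ 3 * Y * (r ^ 2 * ((1 - r) ^ 2 * (3 + 2 * r + r ^ 2))) := by ring
  have h2 : 0 ≤ X * Y ^ 3 * ((1 - r) ^ 2 * (1 + 2 * r + 3 * r ^ 2)) +
      3 * X ^ 2 * Y ^ 2 * (r * (1 - r ^ 2) ^ 2) +
      X ^ 3 * Y * (r ^ 2 * ((1 - r) ^ 2 * (3 + 2 * r + r ^ 2))) := by positivity
  rw [hXY] at h
  nlinarith

set_option maxHeartbeats 4000000 in
theorem g4 : ∀ D ω υ : ℝ, 0 ≤ D → D < 1 → (1 + D) / 2 ≤ ω → ω < 1 → 0 ≤ υ → υ ≤ 1 →
    16 * ∫ t in (0 : ℝ)..1, 3 * t ^ 2 *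
        Ph (min ((1 - t) * (4 / (1 + D))) ((1 - t) * (ω * (4 / (1 + D))) + t * (4 * υ))) ≤
      (2 - (1 + D) / ω) ^ 4 +
        ((1 - D) ^ 4 - (2 - (1 + D) / ω) ^ 4) * (υ * (1 - D) / (1 - ω)) := by
  intro D ω υ hD0 hD1 hω0 hω1 hυ0 hυ1
  have hN : 0 < 1 + D := by linarith
  have hω : 0 < ω := by linarith
  have hp : 0 < 1 - D := by linarith
  have hq : 0 < 1 - ω := by linarith
  have hV : 0 < 4 / (1 + D) := by positivity
  set β : ℝ := 2 - (1 + D) / ω with hβ
  have hβ0 : 0 ≤ β := by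
    have : (1 + D) / ω ≤ 2 := by rw [div_le_iff₀ hω]; linarith
    rw [hβ]; linarith
  have hβp : β ≤ 1 - D := by
    have : 1 + D ≤ (1 + D) / ω := by
      rw [le_div_iff₀ hω]
      nlinarith
    rw [hβ]; linarith
  have hβ4 : β ^ 4 ≤ (1 - D) ^ 4 := pow_le_pow_left₀ hβ0 hβp 4
  set X : ℝ := υ * (1 - D) / (1 - ω) with hX
  have hX0 : 0 ≤ X := by positivity
  have hc0 : Continuous fun t : ℝ => (1 - t) * (4 / (1 + D)) := by fun_prop
  have hcj : Continuous fun t : ℝ => (1 - t) * (ω * (4 / (1 + D))) + t * (4 * υ) := by fun_prop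
  have hcm : Continuous fun t : ℝ =>
      min ((1 - t) * (4 / (1 + D))) ((1 - t) * (ω * (4 / (1 + D))) + t * (4 * υ)) := hc0.min hcj
  rcases le_total 1 X with hX1 | hX1
  · have h1 : ∫ t in (0 : ℝ)..1, 3 * t ^ 2 *
        Ph (min ((1 - t) * (4 / (1 + D))) ((1 - t) * (ω * (4 / (1 + D))) + t * (4 * υ))) ≤
        ∫ t in (0 : ℝ)..1, 3 * t ^ 2 * Ph ((1 - t) * (4 / (1 + D))) := by
      apply integral_mono_on (by norm_num) ((cont_of hcm).intervalIntegrable _ _)
        ((cont_of hc0).intervalIntegrable _ _)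
      intro t _
      exact mul_le_mul_of_nonneg_left (Ph_mono (min_le_left _ _)) (by positivity)
    have h2 := int_base hD0 hD1
    nlinarith [mul_nonneg (sub_nonneg.2 hβ4) (sub_nonneg.2 hX1)]
  · have h1 : ∫ t in (0 : ℝ)..1, 3 * t ^ 2 *
        Ph (min ((1 - t) * (4 / (1 + D))) ((1 - t) * (ω * (4 / (1 + D))) + t * (4 * υ))) ≤
        ∫ t in (0 : ℝ)..1, 3 * t ^ 2 *
          Ph ((1 - t) * (ω * (4 / (1 + D))) + t * (4 * υ)) := by
      apply integral_mono_on (by norm_num) ((cont_of hcm).intervalIntegrable _ _)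
        ((cont_of hcj).intervalIntegrable _ _)
      intro t _
      exact mul_le_mul_of_nonneg_left (Ph_mono (min_le_right _ _)) (by positivity)
    set W : ℝ := ω * (4 / (1 + D)) with hW
    have hW2 : 2 ≤ W := by
      rw [hW, mul_div_assoc', le_div_iff₀ hN]; linarith
    have hυp : υ * (1 - D) ≤ 1 - ω := by
      rw [hX, div_le_one hq] at hX1; exact hX1
    have hυ2 : υ ≤ 1 / 2 := by
      by_contra h
      have h' := not_le.1 h
      nlinarith
    -- value of the upper bound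
    have h2 : 16 * ∫ t in (0 : ℝ)..1, 3 * t ^ 2 * Ph ((1 - t) * W + t * (4 * υ)) ≤
        β ^ 4 + ((1 - D) ^ 4 - β ^ 4) * X := by
      have hrhs : 0 ≤ β ^ 4 + ((1 - D) ^ 4 - β ^ 4) * X := by
        have := mul_nonneg (sub_nonneg.2 hβ4) hX0
        have := pow_nonneg hβ0 4
        linarith
      rcases eq_or_lt_of_le hW2 with hW2' | hW2'
      · -- `W = 2`
        rw [int_zero (by norm_num)]
        · simpa using hrhs
        · intro t ht
          nlinarith [ht.1, ht.2]
      · have hWυ : 0 < W - 4 * υ := by linarith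
        have hb0 : 0 ≤ (W - 2) / (W - 4 * υ) := by
          apply div_nonneg <;> linarith
        have hb1 : (W - 2) / (W - 4 * υ) ≤ 1 := by
          rw [div_le_one hWυ]; linarith
        have key : ∀ t, (1 - t) * W + t * (4 * υ) - 2 =
            ((W - 2) / (W - 4 * υ) - t) * (W - 4 * υ) := by
          intro t; field_simp; ring
        rw [split (cont_of hcj) 0 ((W - 2) / (W - 4 * υ)) 1]
        rw [int_zero (a := (W - 2) / (W - 4 * υ)) hb1 (fun t ht => by
          have := key t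
          have h1 : ((W - 2) / (W - 4 * υ) - t) * (W - 4 * υ) ≤ 0 :=
            mul_nonpos_of_nonpos_of_nonneg (by linarith [ht.1]) hWυ.le
          linarith)]
        rw [int_val (α := W) (β := 4 * υ) hb0 (by linarith) (fun t _ => rfl) (fun t ht => by
          have := key t
          have h1 : 0 ≤ ((W - 2) / (W - 4 * υ) - t) * (W - 4 * υ) :=
            mul_nonneg (by linarith [ht.2]) hWυ.le
          linarith)]
        have e : (1 - (W - 2) / (W - 4 * υ)) * W + (W - 2) / (W - 4 * υ) * (4 * υ) = 2 := by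
          have := key ((W - 2) / (W - 4 * υ))
          rw [sub_self, zero_mul] at this
          linarith
        rw [e]
        -- the value is `β ^ 4 / (1 - z) ^ 3`
        set p : ℝ := 1 - D with hpdef
        set ρ : ℝ := β / p with hρ
        have hρ0 : 0 ≤ ρ := by positivity
        have hρ1 : ρ ≤ 1 := by rw [hρ, div_le_one hp]; exact hβp
        have hβρ : β = ρ * p := by rw [hρ]; field_simp
        have hz : (W - 4 * υ) / W = (1 - X) + X * ρ := by
          rw [hρ, hβ, hX, hW]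
          field_simp
          rw [hpdef]
          ring
        have hWβ : (W - 2) / W = β / 2 := by
          rw [hβ, hW]
          field_simp
          ring
        have hs : 0 < (1 - X) + X * ρ := by rw [← hz]; positivity
        have hval : 16 * (((W - 2) / (W - 4 * υ)) ^ 3 - 16 * ((W - 2) / (W - 4 * υ) / 2) ^ 3 / W -
            (0 ^ 3 - 16 * (0 / ((1 - 0) * W + 0 * (4 * υ))) ^ 3 / W) + 0) =
            β ^ 4 / ((1 - X) + X * ρ) ^ 3 := by
          rw [← hz]
          have : β = 2 * ((W - 2) / W) := by rw [hWβ]; ring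
          rw [this]
          have hW0 : W ≠ 0 := by linarith
          field_simp
          ring
        rw [hval, div_le_iff₀ (by positivity)]
        have hch := chord hX0 (by linarith : 0 ≤ 1 - X) (by ring) hρ0
        -- `p ^ 4 ρ ^ 4 ≤ ...`
        have h3 : ρ ^ 4 ≤ ((1 - X) * ρ ^ 4 + X * ρ) * ((1 - X) + X * ρ) ^ 3 := by
          have := mul_le_mul_of_nonneg_left hch hρ0
          calc ρ ^ 4 = ρ * ρ ^ 3 := by ring
            _ ≤ _ := this
            _ = _ := by ring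
        have h4' : X * ρ ≤ X := mul_le_of_le_one_right hX0 hρ1
        have h4 : ((1 - X) * ρ ^ 4 + X * ρ) ≤ (1 - X) * ρ ^ 4 + X := by linarith
        have h5 : ρ ^ 4 ≤ ((1 - X) * ρ ^ 4 + X) * ((1 - X) + X * ρ) ^ 3 :=
          h3.trans (mul_le_mul_of_nonneg_right h4 (by positivity))
        have h6 := mul_le_mul_of_nonneg_left h5 (by positivity : (0 : ℝ) ≤ p ^ 4)
        calc β ^ 4 = p ^ 4 * ρ ^ 4 := by rw [hβρ]; ring
          _ ≤ _ := h6
          _ = _ := by rw [hβρ]; ring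
    linarith

end Pool.Agent.Helper47.M3

end
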